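import Pool.Agent.H5.FL.Stm3
import Pool.Agent.H78.FL.CLK

set_option autoImplicit false

open MeasureTheory ProbabilityTheory Filter Topology
open scoped NNReal ENNReal

universe u

namespace H56.FL

open H5.FL

theorem aux1 {Ω : Type u} (m : MeasurableSpace Ω) {f g : Ω → ℝ} (a b : ℝ) (hf : Measurable[m] f)
    (hg : Measurable[m] g) : Measurable[m] (fun ω => a * f ω - b * g ω) :=
  (hf.const_mul a).sub (hg.const_mul b)

theorem aux2 {Ω : Type u} (m : MeasurableSpace Ω) {f g : Ω → ℝ} (hf : Measurable[m] f)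
    (hg : Measurable[m] g) : Measurable[m] (fun ω => f ω / g ω) := hf.div hg

theorem aux3 {Ω : Type u} (m : MeasurableSpace Ω) {f g : Ω → ℝ≥0∞} (hf : Measurable[m] f)
    (hg : Measurable[m] g) {A : Set Ω} (hA : MeasurableSet[m] A) :
    Measurable[m] (A.indicator (fun ω => f ω * g ω)) := (hf.mul hg).indicator hA

/-- the likelihood weight -/
noncomputable def ww {N : ℕ} {μ : ℝ} {Ω : Type u} [MeasurableSpace Ω] {P : Measure Ω}
    (π : SPolicy N μ Ω P) (t : ℝ≥0) (i : Fin N) (ω : Ω) : ℝ :=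
  Real.exp (lin μ (π.X t ω, clock π.J t ω) i)

theorem ww_pos {N : ℕ} {μ : ℝ} {Ω : Type u} [MeasurableSpace Ω] {P : Measure Ω}
    (π : SPolicy N μ Ω P) (t : ℝ≥0) (i : Fin N) (ω : Ω) : 0 < ww π t i ω := Real.exp_pos _

theorem ww_meas {N : ℕ} {μ : ℝ} {Ω : Type u} [mΩ : MeasurableSpace Ω] {P : Measure Ω}
    (π : SPolicy N μ Ω P) (t : ℝ≥0) (i : Fin N) : Measurable[π.obs t] (ww π t i) := by
  have h1 : Measurable[π.obs t] (fun ω => π.X t ω i) :=
    (measurable_pi_apply i).comp (π.X_adapted t)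
  have h2 : Measurable[π.obs t] (clock π.J t) :=
    H78.FL.clock_measurable (π.obs t) π.J t (π.J_prog t)
  have h3 : Measurable[π.obs t] (fun ω => clock π.J t ω i) := (measurable_pi_apply i).comp h2
  have h4 : Measurable[π.obs t] (fun ω => μ * π.X t ω i - (1 / 2) * μ ^ 2 * clock π.J t ω i) :=
    aux1 (π.obs t) _ _ h1 h3
  exact Real.measurable_exp.comp h4

/-- the changed measure on the observations up to time `t` -/
noncomputable def nu {N : ℕ} {μ : ℝ} {Ω : Type u} [mΩ : MeasurableSpace Ω] {P : Measure Ω}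
    (π : SPolicy N μ Ω P) (t : ℝ≥0) (i : Fin N) : @Measure Ω (π.obs t) :=
  ((P.restrict (π.jstar ⁻¹' {i})).withDensity
    (fun ω => ENNReal.ofReal (ww π t i ω)⁻¹)).trim (π.obs.le t)

theorem nu_eq (hQIN : S_QIN.{u}) (hGIN : S_GIN.{u}) {N : ℕ} {μ : ℝ} {Ω : Type u}
    [mΩ : MeasurableSpace Ω] {P : Measure Ω} [IsProbabilityMeasure P]
    (π : SPolicy N μ Ω P) (t : ℝ≥0) (i k : Fin N) : nu π t i = nu π t k := by
  have hjs : ∀ l : Fin N, MeasurableSet (π.jstar ⁻¹' {l}) := fun l =>
    (π.full.le 0) _ (π.jstar_full (measurableSet_singleton l))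
  have hE : ∀ (l : Fin N) (ω : Ω), (ww π t l ω)⁻¹ =
      Real.exp (-(lin μ (π.X t ω, clock π.J t ω) l)) := fun l ω => by
    rw [Real.exp_neg]; rfl
  have key : ∀ (l : Fin N) (A : Set Ω), MeasurableSet A →
      ((P.restrict (π.jstar ⁻¹' {l})).withDensity (fun ω => ENNReal.ofReal (ww π t l ω)⁻¹)) A =
      ENNReal.ofReal (∫ ω in A ∩ π.jstar ⁻¹' {l},
        Real.exp (-(lin μ (π.X t ω, clock π.J t ω) l)) ∂P) := by
    intro l A hA
    rw [withDensity_apply _ hA, Measure.restrict_restrict hA,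
      ofReal_integral_eq_lintegral_ofReal]
    · simp only [hE]
    · have h := (hGIN N μ Ω P π l t).1
      rw [integrable_indicator_iff (hjs l)] at h
      exact h.mono_set Set.inter_subset_right
    · exact Filter.Eventually.of_forall fun ω => (Real.exp_pos _).le
  refine @Measure.ext Ω (π.obs t) _ _ ?_
  intro A hA
  have hA' : MeasurableSet A := π.obs.le t A hA
  unfold nu
  rw [trim_measurableSet_eq _ hA, trim_measurableSet_eq _ hA, key i A hA', key k A hA']
  obtain ⟨B, hB, hAB⟩ := π.obs_gen t A hA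
  have e : ∀ l : Fin N, (∫ ω in A ∩ π.jstar ⁻¹' {l},
        Real.exp (-(lin μ (π.X t ω, clock π.J t ω) l)) ∂P) = ∫ ω in B ∩ π.jstar ⁻¹' {l},
        Real.exp (-(lin μ (π.X t ω, clock π.J t ω) l)) ∂P := fun l => by
    apply setIntegral_congr_set
    exact hAB.inter (ae_eq_refl _)
  rw [e i, e k, hQIN N μ Ω P π i k t B hB]

theorem lint (hQIN : S_QIN.{u}) (hGIN : S_GIN.{u}) {N : ℕ} {μ : ℝ} {Ω : Type u}
    [mΩ : MeasurableSpace Ω] {P : Measure Ω} [IsProbabilityMeasure P]
    (π : SPolicy N μ Ω P) (t : ℝ≥0) (i k : Fin N) (g : Ω → ℝ≥0∞) (hg : Measurable[π.obs t] g) :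
    ∫⁻ ω in π.jstar ⁻¹' {i}, ENNReal.ofReal (ww π t i ω)⁻¹ * g ω ∂P =
    ∫⁻ ω in π.jstar ⁻¹' {k}, ENNReal.ofReal (ww π t k ω)⁻¹ * g ω ∂P := by
  have key : ∀ l : Fin N, @lintegral Ω (π.obs t) (nu π t l) g =
      ∫⁻ ω in π.jstar ⁻¹' {l}, ENNReal.ofReal (ww π t l ω)⁻¹ * g ω ∂P := by
    intro l
    have hm : Measurable (fun ω => ENNReal.ofReal (ww π t l ω)⁻¹) :=
      (((ww_meas π t l).mono (π.obs.le t) le_rfl).inv).ennreal_ofReal
    unfold nu
    rw [lintegral_trim (π.obs.le t) hg,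
      lintegral_withDensity_eq_lintegral_mul _ hm (hg.mono (π.obs.le t) le_rfl)]
    rfl
  rw [← key i, ← key k, nu_eq hQIN hGIN π t i k]

theorem t_BAY (hQIN : S_QIN.{u}) (hGIN : S_GIN.{u}) : S_BAY.{u} := by
  intro N μ Ω mΩ P _ π t j
  have hjs : ∀ l : Fin N, MeasurableSet (π.jstar ⁻¹' {l}) := fun l =>
    (π.full.le 0) _ (π.jstar_full (measurableSet_singleton l))
  have hN : (N : ℝ) ≠ 0 := by
    have : 0 < N := j.pos
    positivity
  -- the posterior
  have hpost : ∀ ω, post μ π.X π.J t ω j = ww π t j ω / ∑ i, ww π t i ω := by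
    intro ω
    simp only [post, zz, ww, lin]
    rw [← Finset.mul_sum]
    rw [mul_div_mul_left _ _ (one_div_ne_zero hN)]
  have hSpos : ∀ ω, 0 < ∑ i, ww π t i ω := fun ω =>
    Finset.sum_pos (fun i _ => ww_pos π t i ω) ⟨j, Finset.mem_univ j⟩
  have hp0 : ∀ ω, 0 ≤ post μ π.X π.J t ω j := fun ω => by
    rw [hpost]; exact (div_pos (ww_pos π t j ω) (hSpos ω)).le
  have hp1 : ∀ ω, post μ π.X π.J t ω j ≤ 1 := fun ω => by
    rw [hpost, div_le_one (hSpos ω)]
    exact Finset.single_le_sum (f := fun i => ww π t i ω) (fun i _ => (ww_pos π t i ω).le)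
      (Finset.mem_univ j)
  have hpm : Measurable[π.obs t] (fun ω => post μ π.X π.J t ω j) := by
    have h1 : Measurable[π.obs t] (fun ω => ∑ i, ww π t i ω) :=
      @Finset.measurable_sum _ _ _ _ _ _ (π.obs t) _ _ (fun i _ => ww_meas π t i)
    have h2 : (fun ω => post μ π.X π.J t ω j) = fun ω => ww π t j ω / ∑ i, ww π t i ω :=
      funext hpost
    rw [h2]
    exact aux2 (π.obs t) (ww_meas π t j) h1
  have hpm' : Measurable (fun ω => post μ π.X π.J t ω j) := hpm.mono (π.obs.le t) le_rfl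
  have hpint : Integrable (fun ω => post μ π.X π.J t ω j) P := by
    refine Integrable.of_bound hpm'.aestronglyMeasurable 1 ?_
    refine Filter.Eventually.of_forall fun ω => ?_
    rw [Real.norm_eq_abs, abs_of_nonneg (hp0 ω)]
    exact hp1 ω
  symm
  refine ae_eq_condExp_of_forall_setIntegral_eq (π.obs.le t) ?_ ?_ ?_ ?_
  · exact (integrable_const (1 : ℝ)).indicator (hjs j)
  · intro s _ _
    exact hpint.integrableOn
  · intro A hA _
    have hA' : MeasurableSet A := π.obs.le t A hA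
    rw [setIntegral_indicator (hjs j), setIntegral_const, smul_eq_mul, mul_one]
    -- lintegrals
    have hwm : ∀ k, Measurable (fun ω => ENNReal.ofReal (ww π t k ω)) := fun k =>
      ((ww_meas π t k).mono (π.obs.le t) le_rfl).ennreal_ofReal
    have hwm' : ∀ k, Measurable[π.obs t] (fun ω => ENNReal.ofReal (ww π t k ω)) := fun k =>
      @Measurable.ennreal_ofReal _ (π.obs t) _ (ww_meas π t k)
    have hcanc : ∀ k ω, ENNReal.ofReal (ww π t k ω)⁻¹ * ENNReal.ofReal (ww π t k ω) = 1 := by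
      intro k ω
      rw [← ENNReal.ofReal_mul (inv_nonneg.2 (ww_pos π t k ω).le),
        inv_mul_cancel₀ (ww_pos π t k ω).ne', ENNReal.ofReal_one]
    have h1 : P (A ∩ π.jstar ⁻¹' {j}) = ∫⁻ ω in π.jstar ⁻¹' {j},
        ENNReal.ofReal (ww π t j ω)⁻¹ * A.indicator (fun ω => ENNReal.ofReal (ww π t j ω)) ω ∂P := by
      have e : ∀ ω, ENNReal.ofReal (ww π t j ω)⁻¹ *
          A.indicator (fun ω => ENNReal.ofReal (ww π t j ω)) ω =
          A.indicator (fun _ => (1 : ℝ≥0∞)) ω := by
        intro ω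
        by_cases h : ω ∈ A
        · rw [Set.indicator_of_mem h, Set.indicator_of_mem h, hcanc]
        · rw [Set.indicator_of_notMem h, Set.indicator_of_notMem h, mul_zero]
      simp only [e]
      rw [lintegral_indicator hA', Measure.restrict_restrict hA', setLIntegral_one]
    have h2 : ∫⁻ ω in A, ENNReal.ofReal (post μ π.X π.J t ω j) ∂P = ∑ k, ∫⁻ ω in π.jstar ⁻¹' {k},
        ENNReal.ofReal (ww π t k ω)⁻¹ * A.indicator (fun ω => ENNReal.ofReal (ww π t k ω) *
          ENNReal.ofReal (post μ π.X π.J t ω j)) ω ∂P := by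
      have e : ∀ k ω, ENNReal.ofReal (ww π t k ω)⁻¹ * A.indicator (fun ω =>
          ENNReal.ofReal (ww π t k ω) * ENNReal.ofReal (post μ π.X π.J t ω j)) ω =
          A.indicator (fun ω => ENNReal.ofReal (post μ π.X π.J t ω j)) ω := by
        intro k ω
        by_cases h : ω ∈ A
        · rw [Set.indicator_of_mem h, Set.indicator_of_mem h, ← mul_assoc, hcanc, one_mul]
        · rw [Set.indicator_of_notMem h, Set.indicator_of_notMem h, mul_zero]
      simp only [e]
      rw [← lintegral_indicator hA']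
      have hun : (Set.univ : Set Ω) = ⋃ k ∈ (Finset.univ : Finset (Fin N)),
          π.jstar ⁻¹' {k} := by
        ext ω
        simp
      conv_lhs => rw [← setLIntegral_univ, hun]
      rw [lintegral_biUnion_finset]
      · intro a _ b _ hab
        refine Set.disjoint_left.2 fun ω ha hb => hab ?_
        have ha' : π.jstar ω = a := ha
        have hb' : π.jstar ω = b := hb
        rw [← ha', hb']
      · intro k _
        exact hjs k
    have h3 : ∀ k, ∫⁻ ω in π.jstar ⁻¹' {k},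
        ENNReal.ofReal (ww π t k ω)⁻¹ * A.indicator (fun ω => ENNReal.ofReal (ww π t k ω) *
          ENNReal.ofReal (post μ π.X π.J t ω j)) ω ∂P =
        ∫⁻ ω in π.jstar ⁻¹' {j},
        ENNReal.ofReal (ww π t j ω)⁻¹ * A.indicator (fun ω => ENNReal.ofReal (ww π t k ω) *
          ENNReal.ofReal (post μ π.X π.J t ω j)) ω ∂P := fun k => by
      refine lint hQIN hGIN π t k j _ ?_
      exact aux3 (π.obs t) (hwm' k) (@Measurable.ennreal_ofReal _ (π.obs t) _ hpm) hA
    have h4 : P (A ∩ π.jstar ⁻¹' {j}) = ∫⁻ ω in A, ENNReal.ofReal (post μ π.X π.J t ω j) ∂P := by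
      rw [h1, h2, Finset.sum_congr rfl (fun k _ => h3 k), ← lintegral_finsetSum']
      · refine lintegral_congr fun ω => ?_
        rw [← Finset.mul_sum]
        congr 1
        by_cases h : ω ∈ A
        · simp only [Set.indicator_of_mem h]
          rw [← Finset.sum_mul, ← ENNReal.ofReal_sum_of_nonneg (fun i _ => (ww_pos π t i ω).le),
            ← ENNReal.ofReal_mul (hSpos ω).le, hpost, mul_div_cancel₀ _ (hSpos ω).ne']
        · simp only [Set.indicator_of_notMem h, Finset.sum_const_zero]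
      · intro k _
        refine Measurable.aemeasurable ?_
        refine Measurable.mul (((ww_meas π t j).mono (π.obs.le t) le_rfl).inv).ennreal_ofReal ?_
        exact Measurable.indicator ((hwm k).mul hpm'.ennreal_ofReal) hA'
    rw [integral_eq_lintegral_of_nonneg_ae (Filter.Eventually.of_forall hp0)
      hpm'.aestronglyMeasurable, ← h4]
    rfl
  · exact hpm.aestronglyMeasurable
end H56.FL
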