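import Pool.Agent.H5.FL.Stm3
import Pool.Agent.H78.FL.CLK

set_option autoImplicit false

open MeasureTheory ProbabilityTheory Filter Topology
open scoped NNReal ENNReal

universe u

namespace H56.FL

open H5.FL

theorem hR_nonneg {R y : ℝ} (hR0 : 0 < R) (hy : 0 < y) : 0 ≤ hR R y := by
  unfold hR
  positivity

theorem hR_le {R y : ℝ} (hR0 : 0 < R) (hy : 0 < y) : hR R y ≤ y := by
  unfold hR
  rw [div_le_iff₀ (by positivity)]
  nlinarith [mul_pos hy hy]

theorem hR_tendsto (y : ℝ) (hy : 0 < y) :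
    Tendsto (fun n : ℕ => hR ((n : ℝ) + 1) y) atTop (𝓝 y) := by
  have h1 : ∀ n : ℕ, hR ((n : ℝ) + 1) y = y - y ^ 2 / ((n : ℝ) + 1 + y) := by
    intro n
    have h : (n : ℝ) + 1 + y ≠ 0 := by positivity
    unfold hR
    field_simp
    ring
  have h2 : Tendsto (fun n : ℕ => y ^ 2 / ((n : ℝ) + 1 + y)) atTop (𝓝 0) := by
    refine Tendsto.div_atTop tendsto_const_nhds ?_
    refine tendsto_atTop_add_const_right _ _ ?_
    refine tendsto_atTop_add_const_right _ _ ?_
    exact tendsto_natCast_atTop_atTop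
  simp only [h1]
  have h3 := tendsto_const_nhds (x := y) (f := (atTop : Filter ℕ)) |>.sub h2
  rwa [sub_zero] at h3

theorem t_GIN (hFRT : S_FRT) : S_GIN.{u} := by
  intro N μ Ω mΩ P _ π i t
  have hA0 : MeasurableSet[π.full 0] (π.jstar ⁻¹' {i}) :=
    π.jstar_full (measurableSet_singleton i)
  have hA : MeasurableSet (π.jstar ⁻¹' {i}) := π.full.le 0 _ hA0
  obtain ⟨A, hAe⟩ : ∃ A, A = π.jstar ⁻¹' {i} := ⟨_, rfl⟩
  rw [← hAe] at hA0 hA ⊢
  have hclk : Measurable (clock π.J t) :=
    (H78.FL.clock_measurable (π.obs t) π.J t (π.J_prog t)).mono (π.obs.le t) le_rfl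
  have hX : Measurable (π.X t) := (π.X_adapted t).mono (π.obs.le t) le_rfl
  obtain ⟨y, hye⟩ : ∃ y : Ω → ℝ, y = fun ω => Real.exp (-(lin μ (π.X t ω, clock π.J t ω) i)) :=
    ⟨_, rfl⟩
  have hyω : ∀ ω, Real.exp (-(lin μ (π.X t ω, clock π.J t ω) i)) = y ω := fun ω => by rw [hye]
  have hym : Measurable y := by
    rw [hye]
    refine Real.measurable_exp.comp (Measurable.neg ?_)
    unfold lin
    exact (((measurable_pi_apply i).comp hX).const_mul _).sub
      (((measurable_pi_apply i).comp hclk).const_mul _)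
  have hy0 : ∀ ω, 0 < y ω := fun ω => by rw [hye]; exact Real.exp_pos _
  have hRm : ∀ R : ℝ, Measurable (fun ω => hR R (y ω)) := by
    intro R
    unfold hR
    exact (hym.const_mul R).div (hym.const_add R)
  simp only [hyω]
  have key : ∀ R : ℝ, 0 < R → Integrable (fun ω => hR R (y ω)) P ∧
      ∫ ω in A, hR R (y ω) ∂P ≤ 1 := by
    intro R hR0
    obtain ⟨hT, hG⟩ := hFRT N R μ 0 0 i hR0
    have hM := π.dynamics _ hT
    have e := hM.setIntegral_eq (bot_le : (0 : ℝ≥0) ≤ t) hA0
    have hf : ∀ ω, fR R μ 0 0 i (π.X t ω, clock π.J t ω) = hR R (y ω) := by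
      intro ω
      unfold fR
      rw [hyω, zero_mul, zero_add, Real.cos_zero, mul_one]
    have hint1 : Integrable (fun ω => hR R (y ω)) P := by
      obtain ⟨C, hC⟩ := hT.bdd
      refine Integrable.of_bound (hRm R).aestronglyMeasurable C ?_
      refine Filter.Eventually.of_forall fun ω => ?_
      rw [Real.norm_eq_abs, ← hf ω]
      exact (hC _ _).1
    refine ⟨hint1, ?_⟩
    have hint2 := hM.integrable t
    have h0 : ∀ ω, fR R μ 0 0 i (π.X 0 ω, clock π.J 0 ω) = R / (R + 1) := by
      intro ω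
      unfold fR hR lin
      have hc : clock π.J 0 ω i = 0 := by simp [clock]
      simp only [hc, π.X_zero]
      simp
    have e0 : ∫ ω in A, (fun (t : ℝ≥0) (ω : Ω) => fR R μ 0 0 i (π.X t ω, clock π.J t ω)
      - ∫ s in (0 : ℝ)..t, gen μ (fR R μ 0 0 i) (π.X s.toNNReal ω) (clock π.J s.toNNReal ω)
          (π.J s.toNNReal ω) (π.J s.toNNReal ω = π.jstar ω)) 0 ω ∂P ≤ 1 := by
      simp only [h0, NNReal.coe_zero, intervalIntegral.integral_same, sub_zero]
      rw [setIntegral_const, smul_eq_mul]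
      have h1 : P.real A ≤ 1 := measureReal_le_one
      have h2 : R / (R + 1) ≤ 1 := by
        rw [div_le_one (by positivity)]
        linarith
      have h3 : 0 ≤ R / (R + 1) := by positivity
      have h4 : 0 ≤ P.real A := measureReal_nonneg
      nlinarith
    refine le_trans ?_ (e ▸ e0)
    refine setIntegral_mono_on hint1.integrableOn hint2.integrableOn hA ?_
    intro ω hω
    have hω' : π.jstar ω = i := by
      rw [hAe] at hω
      exact hω
    simp only [hf]
    have hI : ∫ s in (0 : ℝ)..t, gen μ (fR R μ 0 0 i) (π.X s.toNNReal ω)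
        (clock π.J s.toNNReal ω) (π.J s.toNNReal ω) (π.J s.toNNReal ω = π.jstar ω) ≤ 0 := by
      have h := intervalIntegral.integral_nonneg (μ := volume) (a := (0 : ℝ)) (b := (t : ℝ))
        (f := fun s => - gen μ (fR R μ 0 0 i) (π.X s.toNNReal ω)
        (clock π.J s.toNNReal ω) (π.J s.toNNReal ω) (π.J s.toNNReal ω = π.jstar ω))
        t.2 (fun s _ => by
          have h := (hG (π.X s.toNNReal ω) (clock π.J s.toNNReal ω) (π.J s.toNNReal ω)
            (π.J s.toNNReal ω = π.jstar ω) (by rw [hω'])).2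
          linarith)
      rw [intervalIntegral.integral_neg] at h
      linarith
    linarith
  have hlin : ∫⁻ ω in A, ENNReal.ofReal (y ω) ∂P ≤ 1 := by
    have h1 : ∀ ω, liminf (fun n : ℕ => ENNReal.ofReal (hR ((n : ℝ) + 1) (y ω))) atTop =
        ENNReal.ofReal (y ω) := fun ω =>
      ((ENNReal.continuous_ofReal.tendsto _).comp (hR_tendsto (y ω) (hy0 ω))).liminf_eq
    calc ∫⁻ ω in A, ENNReal.ofReal (y ω) ∂P
        = ∫⁻ ω in A, liminf (fun n : ℕ => ENNReal.ofReal (hR ((n : ℝ) + 1) (y ω))) atTop ∂P := by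
          simp only [h1]
      _ ≤ liminf (fun n : ℕ => ∫⁻ ω in A, ENNReal.ofReal (hR ((n : ℝ) + 1) (y ω)) ∂P) atTop :=
          lintegral_liminf_le fun n => (hRm _).ennreal_ofReal
      _ ≤ 1 := by
          refine liminf_le_of_le (by isBoundedDefault) ?_
          intro b hb
          obtain ⟨n, hn⟩ := hb.exists
          refine hn.trans ?_
          have hn0 : (0 : ℝ) < (n : ℝ) + 1 := by positivity
          obtain ⟨k1, k2⟩ := key ((n : ℝ) + 1) hn0
          rw [← ofReal_integral_eq_lintegral_ofReal k1.integrableOn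
            (Filter.Eventually.of_forall fun ω => hR_nonneg hn0 (hy0 ω))]
          rw [← ENNReal.ofReal_one]
          exact ENNReal.ofReal_le_ofReal k2
  have hintA : IntegrableOn y A P := by
    refine ⟨hym.aestronglyMeasurable, ?_⟩
    rw [hasFiniteIntegral_iff_ofReal (Filter.Eventually.of_forall fun ω => (hy0 ω).le)]
    exact hlin.trans_lt ENNReal.one_lt_top
  constructor
  · exact (integrable_indicator_iff hA).2 hintA
  · rw [← ENNReal.ofReal_le_one,
      ofReal_integral_eq_lintegral_ofReal hintA (Filter.Eventually.of_forall fun ω => (hy0 ω).le)]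
    exact hlin
end H56.FL
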