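import Pool.Agent.H5.FL.Stm4
import Pool.Agent.H78.FL.CLK

set_option autoImplicit false

open MeasureTheory ProbabilityTheory Filter Topology
open scoped NNReal ENNReal

universe u

namespace H56.FL

open H5.FL

/-- `gen` is jointly measurable along measurable processes -/
theorem gen_meas (hPAR : S_PAR) {N : ℕ} (μ : ℝ) {A : Type u} [MeasurableSpace A]
    (f : (Fin N → ℝ) × (Fin N → ℝ) → ℝ) (hf : ContDiff ℝ 2 f)
    {X C : A → Fin N → ℝ} {J js : A → Fin N} (hX : Measurable X) (hC : Measurable C)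
    (hJ : Measurable J) (hjs : Measurable js) :
    Measurable fun a => gen μ f (X a) (C a) (J a) (J a = js a) := by
  have hZ : Measurable fun a => (X a, C a) := hX.prodMk hC
  have e : (fun a => gen μ f (X a) (C a) (J a) (J a = js a)) = fun a => ∑ j : Fin N,
      if J a = j then (1 / 2 * fderiv ℝ (fderiv ℝ f) (X a, C a) (Pi.single j 1, 0)
        (Pi.single j 1, 0) + (if J a = js a then μ else 0) *
        fderiv ℝ f (X a, C a) (Pi.single j 1, 0) +
        fderiv ℝ f (X a, C a) (0, Pi.single j 1)) else 0 := by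
    funext a
    rw [Finset.sum_ite_eq]
    simp only [Finset.mem_univ, if_true]
    obtain ⟨h1, h2, h3⟩ := (hPAR N f hf (J a)).1 (X a) (C a)
    unfold gen
    rw [h1, h2, h3]
  rw [e]
  refine Finset.measurable_sum _ fun j _ => ?_
  obtain ⟨-, c1, c2, c3⟩ := hPAR N f hf j
  refine Measurable.ite (hJ (measurableSet_singleton j)) ?_ measurable_const
  refine Measurable.add (Measurable.add ?_ ?_) ?_
  · exact (c2.measurable.comp hZ).const_mul _
  · refine Measurable.mul ?_ (c1.measurable.comp hZ)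
    exact Measurable.ite (measurableSet_eq_fun hJ hjs) measurable_const measurable_const
  · exact c3.measurable.comp hZ

theorem gen_bdd {N : ℕ} (μ : ℝ) (f : (Fin N → ℝ) × (Fin N → ℝ) → ℝ) (hT : IsTest f) :
    ∃ K : ℝ, 0 ≤ K ∧ (∀ z, |f z| ≤ K) ∧ ∀ (x τ : Fin N → ℝ) (j : Fin N) (hit : Prop)
      [Decidable hit], |gen μ f x τ j hit| ≤ K := by
  obtain ⟨C, hC⟩ := hT.bdd
  have hC0 : 0 ≤ C := (abs_nonneg _).trans (hC 0 0).1
  refine ⟨2 * C + |μ| * C, by positivity, ?_, ?_⟩
  · rintro ⟨x, τ⟩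
    have h1 := (hC x τ).1
    have h2 : 0 ≤ |μ| * C := by positivity
    linarith
  · intro x τ j hit _
    obtain ⟨h1, h2, h3⟩ := (hC x τ).2 j
    unfold gen
    have a1 : |(1 / 2 : ℝ) * iteratedDeriv 2 (fun s => f (Function.update x j s, τ)) (x j)| ≤ C := by
      rw [abs_mul, abs_of_pos (by norm_num : (0 : ℝ) < 1 / 2)]
      linarith [abs_nonneg (iteratedDeriv 2 (fun s => f (Function.update x j s, τ)) (x j))]
    have a2 : |(if hit then μ else 0) * deriv (fun s => f (Function.update x j s, τ)) (x j)| ≤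
        |μ| * C := by
      rw [abs_mul]
      refine mul_le_mul ?_ h1 (abs_nonneg _) (abs_nonneg _)
      split_ifs
      · exact le_rfl
      · simp
    calc _ ≤ |(1 / 2 : ℝ) * iteratedDeriv 2 (fun s => f (Function.update x j s, τ)) (x j)| +
          |(if hit then μ else 0) * deriv (fun s => f (Function.update x j s, τ)) (x j)| +
          |deriv (fun s => f (x, Function.update τ j s)) (τ j)| := abs_add_three _ _ _
      _ ≤ 2 * C + |μ| * C := by linarith

theorem clock_cont {N : ℕ} {Ω : Type u} [mΩ : MeasurableSpace Ω] (J : ℝ≥0 → Ω → Fin N)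
    (hJ : Measurable fun p : ℝ≥0 × Ω => J p.1 p.2) (ω : Ω) :
    Continuous (fun t => clock J t ω) := by
  refine continuous_pi (fun j => ?_)
  have hJω : Measurable fun s : ℝ => J s.toNNReal ω :=
    hJ.comp (measurable_real_toNNReal.prodMk measurable_const)
  have hF : Measurable fun s : ℝ => if J s.toNNReal ω = j then (1 : ℝ) else 0 :=
    Measurable.ite (hJω (measurableSet_singleton j)) measurable_const measurable_const
  have hint : ∀ a b : ℝ, IntervalIntegrable
      (fun s : ℝ => if J s.toNNReal ω = j then (1 : ℝ) else 0) volume a b := by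
    intro a b
    refine (intervalIntegrable_const (c := (1 : ℝ))).mono_fun hF.aestronglyMeasurable ?_
    refine Filter.Eventually.of_forall (fun s => ?_)
    simp only
    split_ifs <;> simp
  exact (intervalIntegral.continuous_primitive hint 0).comp NNReal.continuous_coe

theorem X_cont {N : ℕ} {μ : ℝ} {Ω : Type u} [mΩ : MeasurableSpace Ω] {P : Measure Ω}
    (π : BPolicy N μ Ω P) (ω : Ω) : Continuous (fun t => π.X t ω) := by
  have hc := clock_cont π.J (H78.FL.J_joint π.obs π.J π.J_prog) ω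
  refine continuous_pi (fun j => ?_)
  have h1 : (fun t => π.X t ω j) = fun t => π.M t ω j +
      μ * (if π.jstar ω = j then clock π.J t ω j else 0) := funext fun t => π.X_eq t ω j
  rw [h1]
  have h2 : Continuous fun t => π.M t ω j := (continuous_apply j).comp (π.M_cont ω)
  refine h2.add (continuous_const.mul ?_)
  by_cases h : π.jstar ω = j
  · simp only [h, if_true]
    exact (continuous_apply j).comp hc
  · simp only [h, if_false]
    exact continuous_const

/-- joint measurability of the integrand up to time `t` -/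
theorem gen_joint (hPAR : S_PAR) {N : ℕ} (μ : ℝ) {Ω : Type u} [m : MeasurableSpace Ω]
    (f : (Fin N → ℝ) × (Fin N → ℝ) → ℝ) (hf : ContDiff ℝ 2 f)
    (t : ℝ≥0) {X C : ℝ≥0 → Ω → Fin N → ℝ} {J : ℝ≥0 → Ω → Fin N} {js : Ω → Fin N}
    (hXc : ∀ ω, Continuous fun s => X s ω) (hX : ∀ s ≤ t, Measurable (X s))
    (hCc : ∀ ω, Continuous fun s => C s ω) (hC : ∀ s ≤ t, Measurable (C s))
    (hJ : Measurable fun p : Set.Iic t × Ω => J p.1 p.2) (hjs : Measurable js) :
    Measurable fun p : ℝ × Ω =>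
      gen μ f (X (min p.1.toNNReal t) p.2) (C (min p.1.toNNReal t) p.2)
        (J (min p.1.toNNReal t) p.2) (J (min p.1.toNNReal t) p.2 = js p.2) := by
  have hX' : Measurable fun p : ℝ × Ω => X (min p.1.toNNReal t) p.2 :=
    measurable_uncurry_of_continuous_of_measurable (u := fun (r : ℝ) ω => X (min r.toNNReal t) ω)
      (fun ω => (hXc ω).comp ((continuous_real_toNNReal).min continuous_const))
      (fun r => hX _ (min_le_right _ _))
  have hC' : Measurable fun p : ℝ × Ω => C (min p.1.toNNReal t) p.2 :=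
    measurable_uncurry_of_continuous_of_measurable (u := fun (r : ℝ) ω => C (min r.toNNReal t) ω)
      (fun ω => (hCc ω).comp ((continuous_real_toNNReal).min continuous_const))
      (fun r => hC _ (min_le_right _ _))
  have hJ' : Measurable fun p : ℝ × Ω => J (min p.1.toNNReal t) p.2 := by
    have hmm : Measurable fun p : ℝ × Ω =>
        ((⟨min p.1.toNNReal t, Set.mem_Iic.mpr (min_le_right _ _)⟩ : Set.Iic t), p.2) := by
      refine Measurable.prodMk (Measurable.subtype_mk ?_) measurable_snd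
      exact (measurable_fst.real_toNNReal).min measurable_const
    exact hJ.comp hmm
  exact gen_meas.{u} hPAR μ f hf hX' hC' hJ' (hjs.comp measurable_snd)

theorem gen_sec (hPAR : S_PAR) {N : ℕ} (μ : ℝ) {Ω : Type u} [m : MeasurableSpace Ω]
    (f : (Fin N → ℝ) × (Fin N → ℝ) → ℝ) (hf : ContDiff ℝ 2 f)
    (t : ℝ≥0) {X C : ℝ≥0 → Ω → Fin N → ℝ} {J : ℝ≥0 → Ω → Fin N} {js : Ω → Fin N}
    (hXc : ∀ ω, Continuous fun s => X s ω) (hX : ∀ s ≤ t, Measurable (X s))
    (hCc : ∀ ω, Continuous fun s => C s ω) (hC : ∀ s ≤ t, Measurable (C s))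
    (hJ : Measurable fun p : Set.Iic t × Ω => J p.1 p.2) (hjs : Measurable js) (ω : Ω) :
    Measurable fun s : ℝ =>
      gen μ f (X (min s.toNNReal t) ω) (C (min s.toNNReal t) ω)
        (J (min s.toNNReal t) ω) (J (min s.toNNReal t) ω = js ω) := by
  have h1 : Measurable fun s : ℝ => (s, ω) := measurable_id.prodMk measurable_const
  have h2 := (gen_joint hPAR μ f hf t hXc hX hCc hC hJ hjs).comp h1
  exact h2

theorem full_pair {N : ℕ} {Ω : Type u} (m : MeasurableSpace Ω) (f : (Fin N → ℝ) × (Fin N → ℝ) → ℝ) (hf : Continuous f)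
    (X C : Ω → Fin N → ℝ) (hX : Measurable[m] X) (hC : Measurable[m] C) :
    Measurable[m] fun ω => f (X ω, C ω) :=
  hf.measurable.comp (hX.prodMk hC)

theorem int_eq {N : ℕ} (μ : ℝ) {Ω : Type u} (f : (Fin N → ℝ) × (Fin N → ℝ) → ℝ)
    (t : ℝ≥0) (X C : ℝ≥0 → Ω → Fin N → ℝ) (J : ℝ≥0 → Ω → Fin N) (js : Ω → Fin N) (ω : Ω) :
    ∫ s in (0 : ℝ)..t, gen μ f (X s.toNNReal ω) (C s.toNNReal ω)
          (J s.toNNReal ω) (J s.toNNReal ω = js ω) =
    ∫ s in Set.Ioc (0 : ℝ) t, gen μ f (X (min s.toNNReal t) ω)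
      (C (min s.toNNReal t) ω) (J (min s.toNNReal t) ω) (J (min s.toNNReal t) ω = js ω) := by
  rw [intervalIntegral.integral_of_le (NNReal.coe_nonneg t)]
  refine setIntegral_congr_fun measurableSet_Ioc ?_
  intro s hs
  have hs2 : s.toNNReal ≤ t := by
    rw [Real.toNNReal_le_iff_le_coe]; exact hs.2
  simp only [min_eq_left hs2]

theorem int_meas (hPAR : S_PAR) {N : ℕ} (μ : ℝ) {Ω : Type u} [m : MeasurableSpace Ω]
    (f : (Fin N → ℝ) × (Fin N → ℝ) → ℝ) (hf : ContDiff ℝ 2 f)
    (t : ℝ≥0) {X C : ℝ≥0 → Ω → Fin N → ℝ} {J : ℝ≥0 → Ω → Fin N} {js : Ω → Fin N}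
    (hXc : ∀ ω, Continuous fun s => X s ω) (hX : ∀ s ≤ t, Measurable (X s))
    (hCc : ∀ ω, Continuous fun s => C s ω) (hC : ∀ s ≤ t, Measurable (C s))
    (hJ : Measurable fun p : Set.Iic t × Ω => J p.1 p.2) (hjs : Measurable js) :
    StronglyMeasurable fun ω => ∫ s in (0 : ℝ)..t, gen μ f (X s.toNNReal ω)
      (C s.toNNReal ω) (J s.toNNReal ω) (J s.toNNReal ω = js ω) := by
  simp only [int_eq μ f t X C J js]
  exact StronglyMeasurable.integral_prod_left' (μ := volume.restrict (Set.Ioc (0 : ℝ) t))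
    (gen_joint hPAR μ f hf t hXc hX hCc hC hJ hjs).stronglyMeasurable

/-- the hypotheses of the lemmas above for `full t` -/
theorem hyps {N : ℕ} {μ : ℝ} {Ω : Type u} [mΩ : MeasurableSpace Ω] {P : Measure Ω}
    (π : BPolicy N μ Ω P) (t : ℝ≥0) :
    (∀ s ≤ t, Measurable[π.full t] (π.X s)) ∧ (∀ s ≤ t, Measurable[π.full t] (clock π.J s)) ∧
    (Measurable[Subtype.instMeasurableSpace.prod (π.full t)]
      fun p : Set.Iic t × Ω => π.J p.1 p.2) ∧ Measurable[π.full t] π.jstar := by
  refine ⟨fun s hs => ?_, fun s hs => ?_, ?_, ?_⟩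
  · exact (π.X_adapted s).mono ((π.obs_le s).trans (π.full.mono hs)) le_rfl
  · exact (H78.FL.clock_measurable (π.obs s) π.J s (π.J_prog s)).mono
      ((π.obs_le s).trans (π.full.mono hs)) le_rfl
  · exact (π.J_prog t).mono (sup_le_sup le_rfl (MeasurableSpace.comap_mono (π.obs_le t))) le_rfl
  · exact π.jstar_full.mono (π.full.mono (bot_le : (0 : ℝ≥0) ≤ t)) le_rfl

theorem t_MAR (hIFM : S_IFM.{u}) (hPAR : S_PAR) : S_MAR.{u} := by
  intro N μ Ω mΩ P _ π f hT
  obtain ⟨K, hK0, hKf, hKg⟩ := gen_bdd μ f hT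
  have hcont : Continuous f := hT.smooth.continuous
  -- measurability in ω
  have hfm : ∀ t, Measurable[π.full t] fun ω => f (π.X t ω, clock π.J t ω) := by
    intro t
    obtain ⟨h1, h2, h3, h4⟩ := hyps π t
    exact full_pair (π.full t) f hcont (π.X t) (clock π.J t) (h1 t le_rfl) (h2 t le_rfl)
  have hIm : ∀ t, StronglyMeasurable[π.full t] fun ω => ∫ s in (0 : ℝ)..t,
      gen μ f (π.X s.toNNReal ω) (clock π.J s.toNNReal ω) (π.J s.toNNReal ω)
        (π.J s.toNNReal ω = π.jstar ω) := by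
    intro t
    obtain ⟨h1, h2, h3, h4⟩ := hyps π t
    exact @int_meas.{u} hPAR N μ Ω (π.full t) f hT.smooth t π.X (clock π.J) π.J π.jstar
      (X_cont π) h1 (clock_cont π.J (H78.FL.J_joint π.obs π.J π.J_prog)) h2 h3 h4
  have hadm : ∀ t : ℝ≥0, StronglyMeasurable[π.full t] fun ω => f (π.X t ω, clock π.J t ω)
      - ∫ s in (0 : ℝ)..t, gen μ f (π.X s.toNNReal ω) (clock π.J s.toNNReal ω)
          (π.J s.toNNReal ω) (π.J s.toNNReal ω = π.jstar ω) := fun t =>
    (hfm t).stronglyMeasurable.sub (hIm t)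
  -- measurability in s
  have hsm : ∀ (t : ℝ≥0) (ω : Ω), Measurable fun s : ℝ => gen μ f (π.X (min s.toNNReal t) ω)
      (clock π.J (min s.toNNReal t) ω) (π.J (min s.toNNReal t) ω)
      (π.J (min s.toNNReal t) ω = π.jstar ω) := by
    intro t ω
    obtain ⟨h1, h2, h3, h4⟩ := hyps π t
    have hle : π.full t ≤ mΩ := π.full.le t
    exact gen_sec hPAR μ f hT.smooth t (X := π.X) (C := clock π.J) (J := π.J)
      (js := π.jstar) (X_cont π) (fun s hs => (h1 s hs).mono hle le_rfl)
      (clock_cont π.J (H78.FL.J_joint π.obs π.J π.J_prog)) (fun s hs => (h2 s hs).mono hle le_rfl)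
      (h3.mono (sup_le_sup le_rfl (MeasurableSpace.comap_mono hle)) le_rfl) (h4.mono hle le_rfl) ω
  have hii : ∀ (ω : Ω) (a b : ℝ≥0), IntervalIntegrable (fun s : ℝ => gen μ f (π.X s.toNNReal ω)
      (clock π.J s.toNNReal ω) (π.J s.toNNReal ω) (π.J s.toNNReal ω = π.jstar ω)) volume a b := by
    intro ω a b
    have h1 : IntervalIntegrable (fun s : ℝ => gen μ f (π.X (min s.toNNReal (max a b)) ω)
      (clock π.J (min s.toNNReal (max a b)) ω) (π.J (min s.toNNReal (max a b)) ω)
      (π.J (min s.toNNReal (max a b)) ω = π.jstar ω)) volume a b := by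
      refine (intervalIntegrable_const (c := K)).mono_fun
        (hsm (max a b) ω).aestronglyMeasurable ?_
      refine Filter.Eventually.of_forall fun s => ?_
      simp only [Real.norm_eq_abs]
      rw [abs_of_nonneg hK0]
      exact hKg _ _ _ _
    refine h1.congr ?_
    intro s hs
    have h2 : s.toNNReal ≤ max a b := by
      rw [Real.toNNReal_le_iff_le_coe]
      have := hs.2
      simpa using this
    simp only [min_eq_left h2]
  have hint : ∀ t : ℝ≥0, Integrable (fun ω => f (π.X t ω, clock π.J t ω)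
      - ∫ s in (0 : ℝ)..t, gen μ f (π.X s.toNNReal ω) (clock π.J s.toNNReal ω)
          (π.J s.toNNReal ω) (π.J s.toNNReal ω = π.jstar ω)) P := by
    intro t
    refine Integrable.of_bound ((hadm t).mono (π.full.le t)).aestronglyMeasurable
      (K + K * t) ?_
    refine Filter.Eventually.of_forall fun ω => ?_
    refine (norm_sub_le _ _).trans (add_le_add (hKf _) ?_)
    have h := intervalIntegral.norm_integral_le_of_norm_le_const (a := (0 : ℝ)) (b := t)
      (f := fun s : ℝ => gen μ f (π.X s.toNNReal ω)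
      (clock π.J s.toNNReal ω) (π.J s.toNNReal ω) (π.J s.toNNReal ω = π.jstar ω)) (C := K)
      (fun s _ => hKg _ _ _ _)
    rwa [sub_zero, abs_of_nonneg (NNReal.coe_nonneg t)] at h
  refine ⟨hadm, fun s t hst => ?_⟩
  symm
  refine ae_eq_condExp_of_forall_setIntegral_eq (π.full.le s) (hint t)
    (fun A _ _ => (hint s).integrableOn) ?_ (hadm s).aestronglyMeasurable
  intro A hA _
  have h := hIFM N μ Ω P π f hT s t hst A hA
  have e : ∀ ω, (f (π.X t ω, clock π.J t ω) - f (π.X s ω, clock π.J s ω)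
      - ∫ r in (s : ℝ)..t, gen μ f (π.X r.toNNReal ω) (clock π.J r.toNNReal ω)
          (π.J r.toNNReal ω) (π.J r.toNNReal ω = π.jstar ω)) =
      (f (π.X t ω, clock π.J t ω)
      - ∫ r in (0 : ℝ)..t, gen μ f (π.X r.toNNReal ω) (clock π.J r.toNNReal ω)
          (π.J r.toNNReal ω) (π.J r.toNNReal ω = π.jstar ω)) -
      (f (π.X s ω, clock π.J s ω)
      - ∫ r in (0 : ℝ)..s, gen μ f (π.X r.toNNReal ω) (clock π.J r.toNNReal ω)
          (π.J r.toNNReal ω) (π.J r.toNNReal ω = π.jstar ω)) := by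
    intro ω
    have h3 := intervalIntegral.integral_add_adjacent_intervals (hii ω 0 s) (hii ω s t)
    rw [NNReal.coe_zero] at h3
    rw [← h3]
    ring
  simp only [e] at h
  rw [integral_sub (hint t).integrableOn (hint s).integrableOn] at h
  linarith
end H56.FL
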